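import Pool.Agent.helper26.EC.SpecW

/-!
# Project EC, row WND: one window
-/

set_option autoImplicit false

namespace Pool.Agent.EC

open Finset ArithmeticFunction
open Pool.Agent.CH (Win)

private lemma WND_psi_le (N a : ℕ) : psi0 N a ≤ 1 := by
  classical
  unfold psi0
  split_ifs
  · norm_num
  · have : (0 : ℝ) ≤ (#(a.primeFactors.filter fun q : ℕ =>
        (N : ℝ) ^ az ≤ (q : ℝ) ∧ (q : ℝ) < (N : ℝ) ^ ay) : ℝ) := Nat.cast_nonneg _
    linarith

open Classical in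
/-- The pointwise inequality. -/
private lemma WND_pt {N : ℕ}
    (hC : ∀ a : ℕ, N ^ 3 < a → a ≤ (N + 1) ^ 3 → Nat.Coprime a 30 →
      (∀ q : ℕ, q.Prime → (N : ℝ) ^ az ≤ (q : ℝ) → ¬ q ^ 2 ∣ a) → 0 < psi0 N a - TS N a →
      cardFactors a ≤ 4 ∧ ∀ q ∈ a.primeFactors, N < q ^ 11)
    (hT : ∀ m : ℕ, 0 ≤ TS N m)
    (hX : ∀ j : ℕ, 0 ≤ fN N j ∧ fN N j ≤ 1 ∧ (1 ≤ j → fN N j ≠ 0 → N ^ 3 < j ∧ j + 6 < (N + 1) ^ 3))
    {j : ℕ} (hj : j ∈ Win N) (hj30 : j % 30 = 1) :
    vonMangoldt j * fN N j * psi0 N (j + 6) ≤ 3 * Real.log (N + 1) *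
      ((if ¬ j.Prime ∧ vonMangoldt j ≠ 0 then (1 : ℝ) else 0) + (if j ∈ G4 N then (1 : ℝ) else 0) +
        (if ∃ q : ℕ, q.Prime ∧ (N : ℝ) ^ az ≤ (q : ℝ) ∧ q ^ 2 ∣ j + 6 then (1 : ℝ) else 0) +
        (if j.Prime then fN N j * TS N (j + 6) else 0)) := by
  have hjm := Finset.mem_Ioc.1 hj
  have hjpos : 0 < j := lt_of_le_of_lt (Nat.zero_le _) hjm.1
  have hL : Real.log j ≤ 3 * Real.log (N + 1) := by
    have h1 : Real.log j ≤ Real.log (((N : ℝ) + 1) ^ 3) := by
      apply Real.log_le_log (by exact_mod_cast hjpos)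
      exact_mod_cast hjm.2
    rw [Real.log_pow] at h1
    exact_mod_cast h1
  have hlj : 0 ≤ Real.log j := Real.log_natCast_nonneg j
  have hL0 : 0 ≤ 3 * Real.log ((N : ℝ) + 1) := hlj.trans hL
  obtain ⟨hf0, hf1, hfs⟩ := hX j
  have hw := WND_psi_le N (j + 6)
  have hLam : vonMangoldt j ≤ 3 * Real.log (N + 1) := vonMangoldt_le_log.trans hL
  have hLam0 : 0 ≤ vonMangoldt j := vonMangoldt_nonneg
  have hTj := hT (j + 6)
  set w := psi0 N (j + 6) with hwdef
  set L := 3 * Real.log ((N : ℝ) + 1) with hLdef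
  set t := TS N (j + 6) with htdef
  set f := fN N j with hfdef
  have e1 : (0 : ℝ) ≤ (if ¬ j.Prime ∧ vonMangoldt j ≠ 0 then (1 : ℝ) else 0) := by
    split_ifs <;> norm_num
  have e2 : (0 : ℝ) ≤ (if j ∈ G4 N then (1 : ℝ) else 0) := by split_ifs <;> norm_num
  have e3 : (0 : ℝ) ≤ (if ∃ q : ℕ, q.Prime ∧ (N : ℝ) ^ az ≤ (q : ℝ) ∧ q ^ 2 ∣ j + 6 then (1 : ℝ) else 0) := by
    split_ifs <;> norm_num
  have e4 : (0 : ℝ) ≤ (if j.Prime then f * t else 0) := by
    split_ifs
    · exact mul_nonneg hf0 hTj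
    · exact le_rfl
  have hLf : vonMangoldt j * f ≤ L * f := mul_le_mul_of_nonneg_right hLam hf0
  have hLf0 : 0 ≤ vonMangoldt j * f := mul_nonneg hLam0 hf0
  by_cases hp : j.Prime
  · by_cases hf : f = 0
    · rw [hf, mul_zero, zero_mul]
      rw [hf] at e4
      exact mul_nonneg hL0 (by linarith)
    · obtain ⟨ha1, ha2⟩ := hfs hjpos hf
      by_cases hpos : 0 < w - t
      · have hw0 : 0 ≤ w := by linarith
        have hone : (1 : ℝ) ≤ (if j ∈ G4 N then (1 : ℝ) else 0) +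
            (if ∃ q : ℕ, q.Prime ∧ (N : ℝ) ^ az ≤ (q : ℝ) ∧ q ^ 2 ∣ j + 6 then (1 : ℝ) else 0) := by
          by_cases h3 : ∃ q : ℕ, q.Prime ∧ (N : ℝ) ^ az ≤ (q : ℝ) ∧ q ^ 2 ∣ j + 6
          · rw [if_pos h3]
            linarith
          · have hcop : Nat.Coprime (j + 6) 30 := by
              have h7 : (j + 6) % 30 = 7 := by omega
              rw [Nat.coprime_iff_gcd_eq_one, Nat.gcd_comm, Nat.gcd_rec, h7]
              norm_num
            have hcom := hC (j + 6) (by omega) ha2.le hcop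
              (fun q hq hz hd => h3 ⟨q, hq, hz, hd⟩) hpos
            have hG : j ∈ G4 N := by
              unfold G4
              rw [Finset.mem_filter, Finset.mem_Ioo]
              exact ⟨⟨hjm.1, by omega⟩, hp, ha2, hj30, hcom.1, hcom.2⟩
            rw [if_pos hG]
            linarith
        have h5 : f * w ≤ 1 := by
          calc f * w ≤ 1 * w := mul_le_mul_of_nonneg_right hf1 hw0
            _ = w := one_mul w
            _ ≤ 1 := hw
        calc vonMangoldt j * f * w ≤ L * f * w := mul_le_mul_of_nonneg_right hLf hw0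
          _ = L * (f * w) := by ring
          _ ≤ _ := mul_le_mul_of_nonneg_left (by linarith) hL0
      · have hle : w ≤ t := by linarith
        have h6 : vonMangoldt j * f * w ≤ L * (f * t) := by
          calc vonMangoldt j * f * w ≤ vonMangoldt j * f * t := mul_le_mul_of_nonneg_left hle hLf0
            _ ≤ L * f * t := mul_le_mul_of_nonneg_right hLf hTj
            _ = L * (f * t) := by ring
        refine h6.trans (mul_le_mul_of_nonneg_left ?_ hL0)
        rw [if_pos hp]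
        linarith
  · by_cases hz : vonMangoldt j = 0
    · have h0 : vonMangoldt j * f * w = 0 := by rw [hz, zero_mul, zero_mul]
      rw [h0]
      exact mul_nonneg hL0 (by linarith)
    · rw [if_pos (⟨hp, hz⟩ : ¬ j.Prime ∧ vonMangoldt j ≠ 0)]
      have h7 : vonMangoldt j * f * w ≤ L * 1 := by
        calc vonMangoldt j * f * w ≤ vonMangoldt j * f * 1 := mul_le_mul_of_nonneg_left hw hLf0
          _ = vonMangoldt j * f := mul_one _
          _ ≤ L * f := hLf
          _ ≤ L * 1 := mul_le_mul_of_nonneg_left hf1 hL0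
      exact h7.trans (mul_le_mul_of_nonneg_left (by linarith) hL0)

private lemma WND_card (N : ℕ) (hN : 4 ≤ N) : ((#(Win N) : ℕ) : ℝ) ≤ 4 * (N : ℝ) ^ 2 := by
  have h : #(Win N) ≤ 4 * N ^ 2 := by
    unfold Win
    rw [Nat.card_Ioc]
    have : (N + 1) ^ 3 = N ^ 3 + (3 * N ^ 2 + 3 * N + 1) := by ring
    rw [this, Nat.add_sub_cancel_left]
    nlinarith
  exact_mod_cast h

/-- `N ^ a2 ≤ N ^ 3`. -/
private lemma WND_a2 {N j : ℕ} (hN : 1 ≤ N) (hj : N ^ 3 < j) : (N : ℝ) ^ a2 ≤ (j : ℝ) := by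
  have hN1 : (1 : ℝ) ≤ (N : ℝ) := by exact_mod_cast hN
  have h1 : (N : ℝ) ^ a2 ≤ (N : ℝ) ^ (3 : ℝ) := by
    apply Real.rpow_le_rpow_of_exponent_le hN1
    unfold a2
    norm_num
  have h2 : (N : ℝ) ^ (3 : ℝ) = (N : ℝ) ^ 3 := by norm_num
  have h3 : ((N ^ 3 : ℕ) : ℝ) ≤ (j : ℝ) := by exact_mod_cast hj.le
  push_cast at h3
  rw [h2] at h1
  linarith

open Classical in
/-- The switched part. -/
private lemma WND_sw {N : ℕ} (hN : 4 ≤ N) (C : ℝ) (hC0 : 0 < C)
    (hT : ∀ m : ℕ, 0 ≤ TS N m ∧ (m ≤ 8 * N ^ 3 → TS N m ≤ C))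
    (hX : ∀ j : ℕ, 0 ≤ fN N j ∧ fN N j ≤ 1 ∧ (1 ≤ j → fN N j ≠ 0 → N ^ 3 < j ∧ j + 6 < (N + 1) ^ 3) ∧
      (N ^ 3 ≤ j → |fN N j - fN N (j + 6)| ≤ 6 / (N : ℝ) ^ 2))
    (l₂ : ℕ → ℝ)
    (h2 : ∀ a : ℕ, 1 ≤ a → (if ∃ q : ℕ, q.Prime ∧ q ∣ a ∧ 7 ≤ q ∧ (q : ℝ) < (N : ℝ) ^ a2 then (0 : ℝ) else 1) ≤
      wt l₂ a) :
    ∑ j ∈ (Win N).filter (fun j => j % 30 = 1), (if j.Prime then fN N j * TS N (j + 6) else 0) ≤
      ∑ m ∈ (Win N).filter (fun m => m % 30 = 7), TS N m * fN N m * wt l₂ (m - 6) + 24 * C := by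
  have hN0 : (0 : ℝ) < (N : ℝ) := by exact_mod_cast (lt_of_lt_of_le (by norm_num) hN)
  have hN3 : (N + 1) ^ 3 + 6 ≤ 8 * N ^ 3 := by nlinarith [pow_pos (show 0 < N by omega) 2, pow_pos (show 0 < N by omega) 3, mul_le_mul hN hN (by norm_num) (by omega), mul_le_mul (mul_le_mul hN hN (by norm_num) (by omega)) hN (by norm_num) (by positivity)]
  set S := ((Win N).filter (fun j => j % 30 = 1)).filter (fun j => j.Prime) with hS
  rw [← Finset.sum_filter]
  have hstep : ∑ j ∈ S, fN N j * TS N (j + 6) ≤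
      ∑ j ∈ S, (TS N (j + 6) * fN N (j + 6) + 6 / (N : ℝ) ^ 2 * C) := by
    apply Finset.sum_le_sum
    intro j hj
    rw [hS, Finset.mem_filter, Finset.mem_filter] at hj
    have hjm := Finset.mem_Ioc.1 hj.1.1
    have h3 := (hX j).2.2.2 hjm.1.le
    have h4 : fN N j ≤ fN N (j + 6) + 6 / (N : ℝ) ^ 2 := by
      have := (abs_le.1 h3).2
      linarith
    have h5 := hT (j + 6)
    have h6 : TS N (j + 6) ≤ C := h5.2 (by omega)
    calc fN N j * TS N (j + 6) ≤ (fN N (j + 6) + 6 / (N : ℝ) ^ 2) * TS N (j + 6) :=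
          mul_le_mul_of_nonneg_right h4 h5.1
      _ = TS N (j + 6) * fN N (j + 6) + 6 / (N : ℝ) ^ 2 * TS N (j + 6) := by ring
      _ ≤ _ := by
          have h7 : 6 / (N : ℝ) ^ 2 * TS N (j + 6) ≤ 6 / (N : ℝ) ^ 2 * C :=
            mul_le_mul_of_nonneg_left h6 (by positivity)
          linarith
  refine hstep.trans ?_
  rw [Finset.sum_add_distrib]
  have hconst : ∑ j ∈ S, 6 / (N : ℝ) ^ 2 * C ≤ 24 * C := by
    rw [Finset.sum_const, nsmul_eq_mul]
    have h8 : ((#S : ℕ) : ℝ) ≤ 4 * (N : ℝ) ^ 2 := by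
      refine le_trans ?_ (WND_card N hN)
      exact_mod_cast Finset.card_le_card ((Finset.filter_subset _ _).trans (Finset.filter_subset _ _))
    calc ((#S : ℕ) : ℝ) * (6 / (N : ℝ) ^ 2 * C) ≤ 4 * (N : ℝ) ^ 2 * (6 / (N : ℝ) ^ 2 * C) :=
          mul_le_mul_of_nonneg_right h8 (by positivity)
      _ = 24 * C := by
          field_simp
          ring
  have hmain : ∑ j ∈ S, TS N (j + 6) * fN N (j + 6) ≤
      ∑ m ∈ (Win N).filter (fun m => m % 30 = 7), TS N m * fN N m * wt l₂ (m - 6) := by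
    have hz : ∑ j ∈ S, TS N (j + 6) * fN N (j + 6) =
        ∑ j ∈ S.filter (fun j => j + 6 ∈ Win N), TS N (j + 6) * fN N (j + 6) := by
      conv_rhs => rw [Finset.sum_filter]
      apply Finset.sum_congr rfl
      intro j hj
      rw [hS, Finset.mem_filter, Finset.mem_filter] at hj
      have hjm := Finset.mem_Ioc.1 hj.1.1
      split_ifs with hw
      · rfl
      · have h9 : fN N (j + 6) = 0 := by
          by_contra hne
          have h10 := (hX (j + 6)).2.2.1 (by omega) hne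
          exact hw (Finset.mem_Ioc.2 ⟨by omega, by omega⟩)
        rw [h9, mul_zero]
    rw [hz]
    have hinj : Set.InjOn (fun j : ℕ => j + 6) (S.filter (fun j => j + 6 ∈ Win N) : Finset ℕ) := by
      intro a _ b _ hab
      simpa using hab
    calc ∑ j ∈ S.filter (fun j => j + 6 ∈ Win N), TS N (j + 6) * fN N (j + 6)
        ≤ ∑ j ∈ S.filter (fun j => j + 6 ∈ Win N),
            TS N (j + 6) * fN N (j + 6) * wt l₂ (j + 6 - 6) := by
          apply Finset.sum_le_sum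
          intro j hj
          rw [Finset.mem_filter, hS, Finset.mem_filter, Finset.mem_filter] at hj
          have hjm := Finset.mem_Ioc.1 hj.1.1.1
          have hjp := hj.1.2
          have hsub : j + 6 - 6 = j := Nat.add_sub_cancel j 6
          rw [hsub]
          have h11 : 1 ≤ wt l₂ j := by
            have := h2 j hjp.one_lt.le
            rw [if_neg] at this
            · exact this
            · rintro ⟨q, hq, hqj, -, hqz⟩
              have hqe : q = j := (Nat.prime_dvd_prime_iff_eq hq hjp).1 hqj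
              subst hqe
              have := WND_a2 (N := N) (j := q) (by omega) hjm.1
              linarith
          have h12 : 0 ≤ TS N (j + 6) * fN N (j + 6) := mul_nonneg (hT _).1 (hX _).1
          exact le_mul_of_one_le_right h12 h11
      _ = ∑ m ∈ (S.filter (fun j => j + 6 ∈ Win N)).image (fun j => j + 6),
            TS N m * fN N m * wt l₂ (m - 6) := by
          rw [Finset.sum_image hinj]
      _ ≤ _ := by
          apply Finset.sum_le_sum_of_subset_of_nonneg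
          · intro m hm
            rw [Finset.mem_image] at hm
            obtain ⟨j, hj, rfl⟩ := hm
            rw [Finset.mem_filter, hS, Finset.mem_filter, Finset.mem_filter] at hj
            rw [Finset.mem_filter]
            exact ⟨hj.2, by omega⟩
          · intro m hm _
            rw [Finset.mem_filter] at hm
            have hmm := Finset.mem_Ioc.1 hm.1
            have h64 : 64 ≤ N ^ 3 := by
              calc 64 = 4 ^ 3 := by norm_num
                _ ≤ N ^ 3 := Nat.pow_le_pow_left hN 3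
            have := h2 (m - 6) (by omega)
            have h13 : 0 ≤ wt l₂ (m - 6) := by
              refine le_trans ?_ this
              split_ifs <;> norm_num
            exact mul_nonneg (mul_nonneg (hT _).1 (hX _).1) h13
  linarith

/-- **WND**: one window. -/
theorem WND (hCOM : COM_stmt) (hTSB : TSB_stmt) (hXNB : XNB_stmt) (hSQ4 : SQ4_stmt) : WND_stmt := by
  classical
  obtain ⟨N₁, hC⟩ := hCOM
  obtain ⟨C, hC0, hT⟩ := hTSB
  obtain ⟨N₂, hX⟩ := hXNB
  obtain ⟨N₃, hS⟩ := hSQ4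
  refine ⟨max (max N₁ N₂) (max N₃ (max 4 ⌈48 * C⌉₊)), ?_⟩
  intro N hN l₁ l₂ h1 h2
  have hN1 : N₁ ≤ N := le_trans (le_trans (le_max_left _ _) (le_max_left _ _)) hN
  have hN2 : N₂ ≤ N := le_trans (le_trans (le_max_right _ _) (le_max_left _ _)) hN
  have hN3 : N₃ ≤ N := le_trans (le_trans (le_max_left _ _) (le_max_right _ _)) hN
  have hN4 : 4 ≤ N := le_trans (le_trans (le_trans (le_max_left _ _) (le_max_right _ _)) (le_max_right _ _)) hN
  have hN5 : ⌈48 * C⌉₊ ≤ N :=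
    le_trans (le_trans (le_trans (le_max_right _ _) (le_max_right _ _)) (le_max_right _ _)) hN
  have hCN : 48 * C ≤ (N : ℝ) := (Nat.le_ceil _).trans (by exact_mod_cast hN5)
  have hNr : (1 : ℝ) ≤ (N : ℝ) := by exact_mod_cast (le_trans (by norm_num) hN4)
  have hTN := fun m => hT N (by omega) m
  obtain ⟨-, -, hXN⟩ := hX N hN2
  obtain ⟨hSq, hSp⟩ := hS N hN3
  set L := 3 * Real.log ((N : ℝ) + 1) with hLdef
  have hL0 : 0 ≤ L := by
    have : 0 ≤ Real.log ((N : ℝ) + 1) := Real.log_nonneg (by linarith)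
    linarith
  have step1 : ∑ j ∈ Win N with j % 30 = 1, vonMangoldt j * fN N j * wt l₁ (j + 6) ≤
      ∑ j ∈ Win N with j % 30 = 1, L *
      ((if ¬ j.Prime ∧ vonMangoldt j ≠ 0 then (1 : ℝ) else 0) + (if j ∈ G4 N then (1 : ℝ) else 0) +
        (if ∃ q : ℕ, q.Prime ∧ (N : ℝ) ^ az ≤ (q : ℝ) ∧ q ^ 2 ∣ j + 6 then (1 : ℝ) else 0) +
        (if j.Prime then fN N j * TS N (j + 6) else 0)) := by
    apply Finset.sum_le_sum
    intro j hj
    rw [Finset.mem_filter] at hj
    refine le_trans ?_ (WND_pt (hC N hN1) (fun m => (hTN m).1)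
      (fun j => ⟨(hXN j).1, (hXN j).2.1, (hXN j).2.2.1⟩) hj.1 hj.2)
    exact mul_le_mul_of_nonneg_left (h1 (j + 6) (by omega))
      (mul_nonneg vonMangoldt_nonneg (hXN j).1)
  rw [← Finset.mul_sum] at step1
  rw [Finset.sum_add_distrib, Finset.sum_add_distrib, Finset.sum_add_distrib] at step1
  have hf : ∀ (P : ℕ → Prop) [DecidablePred P],
      #(((Win N).filter fun j => j % 30 = 1).filter P) ≤ #((Win N).filter P) := by
    intro P _
    exact Finset.card_le_card (Finset.filter_subset_filter _ (Finset.filter_subset _ _))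
  have g1 : ∑ j ∈ Win N with j % 30 = 1,
      (if ¬ j.Prime ∧ vonMangoldt j ≠ 0 then (1 : ℝ) else 0) ≤ (N : ℝ) ^ (39 / 20 : ℝ) / 4 := by
    rw [Finset.sum_boole]
    refine le_trans ?_ hSp
    exact_mod_cast (hf _)
  have g2 : ∑ j ∈ Win N with j % 30 = 1, (if j ∈ G4 N then (1 : ℝ) else 0) ≤ (#(G4 N) : ℝ) := by
    rw [Finset.sum_boole]
    have : #(((Win N).filter fun j => j % 30 = 1).filter fun j : ℕ => j ∈ G4 N) ≤ #(G4 N) := by
      apply Finset.card_le_card
      intro j hj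
      exact (Finset.mem_filter.1 hj).2
    exact_mod_cast this
  have g3 : ∑ j ∈ Win N with j % 30 = 1,
      (if ∃ q : ℕ, q.Prime ∧ (N : ℝ) ^ az ≤ (q : ℝ) ∧ q ^ 2 ∣ j + 6 then (1 : ℝ) else 0) ≤
      (N : ℝ) ^ (39 / 20 : ℝ) / 4 := by
    rw [Finset.sum_boole]
    refine le_trans ?_ hSq
    exact_mod_cast (hf _)
  have g4 := WND_sw hN4 C hC0 hTN hXN l₂ h2
  have hbig : 24 * C ≤ (N : ℝ) ^ (39 / 20 : ℝ) / 2 := by
    have : (N : ℝ) ≤ (N : ℝ) ^ (39 / 20 : ℝ) := by
      calc (N : ℝ) = (N : ℝ) ^ (1 : ℝ) := (Real.rpow_one _).symm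
        _ ≤ _ := Real.rpow_le_rpow_of_exponent_le hNr (by norm_num)
    linarith
  set T := ∑ m ∈ (Win N).filter (fun m => m % 30 = 7), TS N m * fN N m * wt l₂ (m - 6) with hTdef
  have step2 : ∑ j ∈ Win N with j % 30 = 1, vonMangoldt j * fN N j * wt l₁ (j + 6) ≤
      L * ((#(G4 N) : ℝ) + (N : ℝ) ^ (39 / 20 : ℝ) + T) :=
    step1.trans (mul_le_mul_of_nonneg_left (by linarith) hL0)
  have : L * ((#(G4 N) : ℝ) + (N : ℝ) ^ (39 / 20 : ℝ) + T) =
      L * ((#(G4 N) : ℝ) + (N : ℝ) ^ (39 / 20 : ℝ)) + L * T := by ring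
  rw [this] at step2
  linarith

end Pool.Agent.EC
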